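import Mathlib

/-!
# The vertex Maker-Breaker clique game has no sharp threshold at `n ^ (-2 / k)`

For every bias `b ≥ 1` and every `k ≥ 8` the `(1 : b)` vertex Maker-Breaker `K_k`-game on `G(n, p)` has
no sharp threshold at `n ^ (-2 / k)`: for a small `ε > 0` (which depends on `k`) Breaker still wins at
`p = (1 + ε) n ^ (-2 / k)` with probability at least `1 / 2` for all large `n`.

Idea. At this `p` there are few copies of `K_k`. By first moment bounds it is likely that each family
of `m` copies of `K_k` spans at least `2 m` vertices; by Hall's theorem each copy of `K_k` can then be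
given a pair of its vertices such that these pairs are disjoint, and Breaker wins by pairing.
-/

set_option autoImplicit false

namespace Pool.Agent.Results.MP_a33257_co.NoSharpThreshold

open Finset Filter

/-! ## The game and the random graph -/

section Defs

variable {V : Type} [Fintype V] [DecidableEq V]

/-- `MakerWinsFrom G k b M B`: Maker, whose set is `M` while Breaker's set is `B`, is to move in the
`(1 : b)` vertex Maker-Breaker `K_k`-game on `G`, and she can force a win: either her set already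
contains the vertices of a copy of `K_k`, or she can claim an unclaimed vertex `x` such that she can
force a win after each possible answer `Y` of Breaker, who claims `b` of the unclaimed vertices, or
all of them when there are fewer than `b`. -/
inductive MakerWinsFrom (G : SimpleGraph V) (k b : ℕ) : Finset V → Finset V → Prop
  | clique (M B K : Finset V) (h1 : K ⊆ M) (h2 : G.IsNClique k K) : MakerWinsFrom G k b M B
  | move (M B : Finset V) (x : V) (hx : x ∉ M ∪ B)
      (h : ∀ Y : Finset V, Y ⊆ (insert x M ∪ B)ᶜ → Y.card = min b (insert x M ∪ B)ᶜ.card →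
        MakerWinsFrom G k b (insert x M) (B ∪ Y)) : MakerWinsFrom G k b M B

/-- Maker has a winning strategy in the `(1 : b)` vertex Maker-Breaker `K_k`-game on `G`. -/
def MakerWins (G : SimpleGraph V) (k b : ℕ) : Prop := MakerWinsFrom G k b ∅ ∅

end Defs

/-- the pairs of vertices -/
noncomputable def pairs (n : ℕ) : Finset (Sym2 (Fin n)) := by
  classical
  exact (⊤ : SimpleGraph (Fin n)).edgeFinset

open Classical in
/-- The probability that `G(n, p)` has the property `A`: a graph on the vertices `0, ..., n - 1` whose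
set of edges is `F` has the probability `p ^ |F| * (1 - p) ^ (n.choose 2 - |F|)`. -/
noncomputable def prob (n : ℕ) (p : ℝ) (A : SimpleGraph (Fin n) → Prop) : ℝ :=
  ∑ F ∈ (pairs n).powerset, if A (SimpleGraph.fromEdgeSet (F : Set (Sym2 (Fin n)))) then
    p ^ F.card * (1 - p) ^ ((pairs n).card - F.card) else 0

/-- The `(1 : b)` vertex Maker-Breaker `K_k`-game on `G(n, p)` has a sharp threshold at `pstar`. (The
game is finite, so that Breaker has a winning strategy if and only if Maker has none.) -/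
def SharpThreshold (b k : ℕ) (pstar : ℕ → ℝ) : Prop :=
  ∀ ε : ℝ, 0 < ε → ∀ p : ℕ → ℝ, (∀ n, 0 ≤ p n ∧ p n ≤ 1) →
    ((∀ᶠ n in atTop, (1 + ε) * pstar n ≤ p n) →
      Tendsto (fun n => prob n (p n) (fun G => MakerWins G k b)) atTop (nhds 1)) ∧
    ((∀ᶠ n in atTop, p n ≤ (1 - ε) * pstar n) →
      Tendsto (fun n => prob n (p n) (fun G => ¬ MakerWins G k b)) atTop (nhds 1))

/-! ## Hall's theorem and pairing strategies -/

section Hall

variable {V : Type} [Fintype V] [DecidableEq V]

/-- Pairing strategy -/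
lemma not_makerWins_of_pairing (G : SimpleGraph V) (k b : ℕ) (hb : 1 ≤ b)
    (f : {K : Finset V // G.IsNClique k K} × Bool → V) (hf : Function.Injective f)
    (hf' : ∀ x, f x ∈ x.1.1) : ¬ MakerWins G k b := by
  intro h
  have key : ∀ M B : Finset V, MakerWinsFrom G k b M B → Disjoint M B →
      (∀ K, (f (K, true) ∈ B ∨ f (K, false) ∈ B) ∨ (f (K, true) ∉ M ∧ f (K, false) ∉ M)) →
      False := by
    intro M B h
    induction h with
    | clique M B K h1 h2 =>
      intro hd hK
      have a1 := h1 (hf' (⟨K, h2⟩, true))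
      have a2 := h1 (hf' (⟨K, h2⟩, false))
      rcases hK ⟨K, h2⟩ with (h | h) | h
      · exact (Finset.disjoint_left.1 hd) a1 h
      · exact (Finset.disjoint_left.1 hd) a2 h
      · exact h.1 a1
    | move M B x hx h ih =>
      intro hd hK
      rw [Finset.mem_union, not_or] at hx
      set Fr := (insert x M ∪ B)ᶜ with hFr
      -- the answer of Breaker
      obtain ⟨Y, hY1, hY2, hY3⟩ : ∃ Y : Finset V, Y ⊆ Fr ∧ Y.card = min b Fr.card ∧
          ∀ K c, f (K, c) = x → f (K, !c) ∈ Fr → f (K, !c) ∈ Y := by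
        by_cases hex : ∃ K c, f (K, c) = x ∧ f (K, !c) ∈ Fr
        · obtain ⟨K, c, h1, h2⟩ := hex
          obtain ⟨Y, hY1, hY2, hY3⟩ := Finset.exists_subsuperset_card_eq
            (s := {f (K, !c)}) (t := Fr) (n := min b Fr.card) (by
              rw [Finset.singleton_subset_iff]; exact h2) (by
              rw [Finset.card_singleton]
              exact le_min hb (Finset.card_pos.2 ⟨_, h2⟩)) (min_le_right _ _)
          refine ⟨Y, hY2, hY3, fun K' c' h3 _ => ?_⟩
          have h5 : (K', c') = (K, c) := hf (h3.trans h1.symm)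
          rw [Prod.mk.injEq] at h5
          rw [h5.1, h5.2]
          exact hY1 (Finset.mem_singleton_self _)
        · obtain ⟨Y, hY1, hY2⟩ := Finset.exists_subset_card_eq
            (s := Fr) (n := min b Fr.card) (min_le_right _ _)
          exact ⟨Y, hY1, hY2, fun K c h1 h2 => absurd ⟨K, c, h1, h2⟩ hex⟩
      refine ih Y hY1 hY2 ?_ ?_
      · rw [Finset.disjoint_union_right]
        constructor
        · rw [Finset.disjoint_insert_left]
          exact ⟨hx.2, hd⟩
        · rw [Finset.disjoint_left]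
          intro y hy hyY
          have := hY1 hyY
          rw [hFr, Finset.mem_compl, Finset.mem_union, not_or] at this
          exact this.1 hy
      · intro K
        rcases hK K with (h1 | h1) | ⟨h1, h2⟩
        · exact Or.inl (Or.inl (Finset.mem_union_left _ h1))
        · exact Or.inl (Or.inr (Finset.mem_union_left _ h1))
        · have hne : f (K, true) ≠ f (K, false) := by
            intro he
            have := hf he
            simp at this
          by_cases c1 : f (K, true) = x
          · left; right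
            by_cases c2 : f (K, false) ∈ B
            · exact Finset.mem_union_left _ c2
            · refine Finset.mem_union_right _ (hY3 K true c1 ?_)
              rw [hFr, Finset.mem_compl, Finset.mem_union, Finset.mem_insert, not_or, not_or]
              exact ⟨⟨fun h => hne (c1.trans h.symm), h2⟩, c2⟩
          by_cases c3 : f (K, false) = x
          · left; left
            by_cases c2 : f (K, true) ∈ B
            · exact Finset.mem_union_left _ c2
            · refine Finset.mem_union_right _ (hY3 K false c3 ?_)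
              rw [hFr, Finset.mem_compl, Finset.mem_union, Finset.mem_insert, not_or, not_or]
              exact ⟨⟨c1, h1⟩, c2⟩
          · right
            rw [Finset.mem_insert, Finset.mem_insert, not_or, not_or]
            exact ⟨⟨c1, h1⟩, ⟨c3, h2⟩⟩
  exact key ∅ ∅ h (Finset.disjoint_empty_left _) (fun K => Or.inr ⟨by simp, by simp⟩)

/-- Hall's condition -/
lemma not_makerWins_of_hall (G : SimpleGraph V) (k b : ℕ) (hb : 1 ≤ b)
    (h : ∀ S : Finset (Finset V), (∀ K ∈ S, G.IsNClique k K) → 2 * S.card ≤ (S.biUnion id).card) :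
    ¬ MakerWins G k b := by
  classical
  have hall := (Finset.all_card_le_biUnion_card_iff_exists_injective
    (fun x : {K : Finset V // G.IsNClique k K} × Bool => x.1.1)).1 (by
      intro s
      set S : Finset (Finset V) := s.image (fun x => x.1.1) with hS
      have h1 : s.card ≤ 2 * S.card := by
        have h2 : s ⊆ (S.attach ×ˢ (Finset.univ : Finset Bool)).image
            (fun y : {K // K ∈ S} × Bool =>
              (⟨⟨y.1.1, by
                obtain ⟨x, _, hx⟩ := Finset.mem_image.1 y.1.2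
                rw [← hx]
                exact x.1.2⟩, y.2⟩ : {K : Finset V // G.IsNClique k K} × Bool)) := by
          rintro ⟨K, c⟩ hx
          refine Finset.mem_image.2 ⟨(⟨K.1, Finset.mem_image.2 ⟨(K, c), hx, rfl⟩⟩, c), ?_, rfl⟩
          simp
        refine (Finset.card_le_card h2).trans (Finset.card_image_le.trans ?_)
        rw [Finset.card_product, Finset.card_attach]
        simp [mul_comm]
      refine h1.trans ((h S ?_).trans (Finset.card_le_card ?_))
      · intro K hK
        obtain ⟨x, _, rfl⟩ := Finset.mem_image.1 hK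
        exact x.1.2
      · intro y hy
        rw [Finset.mem_biUnion] at hy ⊢
        obtain ⟨K, hK, hy⟩ := hy
        obtain ⟨x, hx, rfl⟩ := Finset.mem_image.1 hK
        exact ⟨x, hx, hy⟩)
  obtain ⟨f, hf1, hf2⟩ := hall
  exact not_makerWins_of_pairing G k b hb f hf1 hf2

end Hall

/-! ## The bad configurations -/

section Bad

variable {V : Type} [Fintype V] [DecidableEq V]

/-- three copies of `K_k` with large intersections -/
def Triple (k : ℕ) (A B C : Finset V) : Prop :=
  (A.card = k ∧ B.card = k ∧ C.card = k) ∧ (A ≠ B ∧ A ≠ C ∧ B ≠ C) ∧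
    2 ≤ (A ∩ B).card ∧ 2 ≤ (A ∩ C).card ∧ k + 2 ≤ (A ∪ B ∪ C).card

/-- a family of copies of `K_k` with small intersections and a small union -/
def Linear (k : ℕ) (S : Finset (Finset V)) : Prop :=
  S.Nonempty ∧ (∀ A ∈ S, A.card = k) ∧ (∀ A ∈ S, ∀ B ∈ S, A ≠ B → (A ∩ B).card ≤ 1) ∧
    (S.biUnion id).card ≤ 4 * S.card

omit [Fintype V] in
/-- three different `k`-cliques in a set with `k + 1` elements yield a clique with `k + 1` elements -/
lemma clique_succ (G : SimpleGraph V) (k : ℕ) (A B C : Finset V) (hA : G.IsNClique k A)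
    (hB : G.IsNClique k B) (hC : G.IsNClique k C) (h1 : A ≠ B) (h2 : A ≠ C) (h3 : B ≠ C)
    (hW : (A ∪ B ∪ C).card ≤ k + 1) : ∃ K, G.IsNClique (k + 1) K := by
  have cA := hA.2
  have cB := hB.2
  have cC := hC.2
  have hAW : A ⊆ A ∪ B ∪ C := fun x hx => by simp [hx]
  have hBW : B ⊆ A ∪ B ∪ C := fun x hx => by simp [hx]
  have hCW : C ⊆ A ∪ B ∪ C := fun x hx => by simp [hx]
  set W := A ∪ B ∪ C with hWdef
  have hWc : W.card = k + 1 := by
    refine le_antisymm hW ?_
    by_contra hlt
    have e1 : A = W := Finset.eq_of_subset_of_card_le hAW (by omega)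
    have e2 : B = W := Finset.eq_of_subset_of_card_le hBW (by omega)
    exact h1 (e1.trans e2.symm)
  have hdA : (W \ A).card = 1 := by rw [Finset.card_sdiff_of_subset hAW]; omega
  have hdB : (W \ B).card = 1 := by rw [Finset.card_sdiff_of_subset hBW]; omega
  have hdC : (W \ C).card = 1 := by rw [Finset.card_sdiff_of_subset hCW]; omega
  obtain ⟨a, ha⟩ := Finset.card_eq_one.1 hdA
  obtain ⟨b, hb⟩ := Finset.card_eq_one.1 hdB
  obtain ⟨c, hc⟩ := Finset.card_eq_one.1 hdC
  have hab : a ≠ b := by
    rintro rfl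
    apply h1
    have e : W \ A = W \ B := by rw [ha, hb]
    rw [← Finset.sdiff_sdiff_eq_self hAW, ← Finset.sdiff_sdiff_eq_self hBW, e]
  have hac : a ≠ c := by
    rintro rfl
    apply h2
    have e : W \ A = W \ C := by rw [ha, hc]
    rw [← Finset.sdiff_sdiff_eq_self hAW, ← Finset.sdiff_sdiff_eq_self hCW, e]
  have hbc : b ≠ c := by
    rintro rfl
    apply h3
    have e : W \ B = W \ C := by rw [hb, hc]
    rw [← Finset.sdiff_sdiff_eq_self hBW, ← Finset.sdiff_sdiff_eq_self hCW, e]
  have memA : ∀ x ∈ W, x ≠ a → x ∈ A := by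
    intro x hx hxa
    by_contra hxA
    have : x ∈ W \ A := Finset.mem_sdiff.2 ⟨hx, hxA⟩
    rw [ha, Finset.mem_singleton] at this
    exact hxa this
  have memB : ∀ x ∈ W, x ≠ b → x ∈ B := by
    intro x hx hxa
    by_contra hxA
    have : x ∈ W \ B := Finset.mem_sdiff.2 ⟨hx, hxA⟩
    rw [hb, Finset.mem_singleton] at this
    exact hxa this
  have memC : ∀ x ∈ W, x ≠ c → x ∈ C := by
    intro x hx hxa
    by_contra hxA
    have : x ∈ W \ C := Finset.mem_sdiff.2 ⟨hx, hxA⟩
    rw [hc, Finset.mem_singleton] at this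
    exact hxa this
  refine ⟨W, ?_, hWc⟩
  intro x hx y hy hxy
  have hx' : x ∈ W := hx
  have hy' : y ∈ W := hy
  by_cases cA' : x ≠ a ∧ y ≠ a
  · exact hA.1 (memA x hx' cA'.1) (memA y hy' cA'.2) hxy
  by_cases cB' : x ≠ b ∧ y ≠ b
  · exact hB.1 (memB x hx' cB'.1) (memB y hy' cB'.2) hxy
  · refine hC.1 (memC x hx' ?_) (memC y hy' ?_) hxy
    · rintro rfl
      apply cA'
      refine ⟨hac.symm, ?_⟩
      rintro rfl
      exact cB' ⟨hbc.symm, hab⟩
    · rintro rfl
      apply cA'
      refine ⟨?_, hac.symm⟩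
      rintro rfl
      exact cB' ⟨hab, hbc.symm⟩

theorem bad_of_makerWins (G : SimpleGraph V) (k b : ℕ) (hb : 1 ≤ b)
    (h : MakerWins G k b) :
    (∃ K, G.IsNClique (k + 1) K) ∨
    (∃ A B C, Triple k A B C ∧ G.IsNClique k A ∧ G.IsNClique k B ∧ G.IsNClique k C) ∨
    ∃ S : Finset (Finset V), Linear k S ∧ ∀ A ∈ S, G.IsNClique k A := by
  by_contra hcon
  rw [not_or, not_or] at hcon
  obtain ⟨c1, c2, c3⟩ := hcon
  refine not_makerWins_of_hall G k b hb (fun S hS => ?_) h
  by_contra hlt
  -- each clique meets at most one other clique in two vertices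
  have hmatch : ∀ A ∈ S, ∀ B ∈ S, ∀ C ∈ S, A ≠ B → A ≠ C → 2 ≤ (A ∩ B).card →
      2 ≤ (A ∩ C).card → B = C := by
    intro A hA B hB C hC hAB hAC h2 h3
    by_contra hBC
    by_cases hW : (A ∪ B ∪ C).card ≤ k + 1
    · exact c1 (clique_succ G k A B C (hS A hA) (hS B hB) (hS C hC) hAB hAC hBC hW)
    · exact c2 ⟨A, B, C, ⟨⟨(hS A hA).2, (hS B hB).2, (hS C hC).2⟩, ⟨hAB, hAC, hBC⟩, h2, h3,
        by omega⟩, hS A hA, hS B hB, hS C hC⟩
  -- a maximal linear subfamily
  set L : Finset (Finset (Finset V)) := S.powerset.filter (fun S' =>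
    ∀ A ∈ S', ∀ B ∈ S', A ≠ B → (A ∩ B).card ≤ 1) with hL
  obtain ⟨S', hS'L, hmax⟩ := Finset.exists_max_image L Finset.card
    ⟨∅, by rw [hL, Finset.mem_filter]; exact ⟨by simp, by simp⟩⟩
  rw [hL, Finset.mem_filter, Finset.mem_powerset] at hS'L
  obtain ⟨hS'S, hlin⟩ := hS'L
  have hpartner : ∀ A : Finset V, ∃ B : Finset V, A ∈ S \ S' →
      B ∈ S' ∧ 2 ≤ (B ∩ A).card := by
    intro A
    by_cases hA : A ∈ S \ S'
    · by_contra hno
      push Not at hno
      rw [Finset.mem_sdiff] at hA
      have hins : insert A S' ∈ L := by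
        rw [hL, Finset.mem_filter, Finset.mem_powerset]
        refine ⟨Finset.insert_subset hA.1 hS'S, ?_⟩
        intro B hB C hC hBC
        rw [Finset.mem_insert] at hB hC
        rcases hB with rfl | hB
        · rcases hC with rfl | hC
          · exact absurd rfl hBC
          · have := (hno C).2 hC
            rw [Finset.inter_comm] at this
            omega
        · rcases hC with rfl | hC
          · have := (hno B).2 hB
            omega
          · exact hlin B hB C hC hBC
      have := hmax _ hins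
      rw [Finset.card_insert_of_notMem hA.2] at this
      omega
    · exact ⟨∅, fun h => absurd h hA⟩
  choose g hg using hpartner
  have hcard : (S \ S').card ≤ S'.card := by
    refine Finset.card_le_card_of_injOn g (fun A hA => (hg A hA).1) ?_
    intro A hA B hB hAB
    have a1 := hg A hA
    have b1 := hg B hB
    rw [← hAB] at b1
    have hA' := Finset.mem_sdiff.1 (Finset.mem_coe.1 hA)
    have hB' := Finset.mem_sdiff.1 (Finset.mem_coe.1 hB)
    refine hmatch (g A) (hS'S a1.1) A hA'.1 B hB'.1 ?_ ?_ a1.2 b1.2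
    · intro h; exact hA'.2 (h ▸ a1.1)
    · intro h; exact hB'.2 (h ▸ a1.1)
  have hScard : S.card ≤ 2 * S'.card := by
    rw [Finset.card_sdiff_of_subset hS'S] at hcard
    omega
  refine c3 ⟨S', ⟨?_, fun A hA => (hS A (hS'S hA)).2, hlin, ?_⟩, fun A hA => hS A (hS'S hA)⟩
  · rw [Finset.nonempty_iff_ne_empty]
    rintro rfl
    simp only [Finset.card_empty] at hScard
    have : S.card = 0 := by omega
    omega
  · have h1 : (S'.biUnion id).card ≤ (S.biUnion id).card :=
      Finset.card_le_card (Finset.biUnion_subset_biUnion_of_subset_left _ hS'S)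
    omega

end Bad

/-! ## The number of edges of the bad configurations -/

section Edges

variable {V : Type} [DecidableEq V]

/-- the pairs of elements of `K` -/
def ecl (K : Finset V) : Finset (Sym2 V) := K.offDiag.image Sym2.mk.uncurry

lemma mem_ecl {K : Finset V} {x y : V} : s(x, y) ∈ ecl K ↔ x ∈ K ∧ y ∈ K ∧ x ≠ y := by
  unfold ecl
  rw [Finset.mem_image]
  constructor
  · rintro ⟨⟨a, b⟩, h, he⟩
    rw [Finset.mem_offDiag] at h
    obtain ⟨h1, h2, h3⟩ := h
    simp only [Function.uncurry_apply_pair] at he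
    rw [Sym2.eq_iff] at he
    rcases he with ⟨rfl, rfl⟩ | ⟨rfl, rfl⟩
    · exact ⟨h1, h2, h3⟩
    · exact ⟨h2, h1, h3.symm⟩
  · rintro ⟨h1, h2, h3⟩
    exact ⟨(x, y), Finset.mem_offDiag.2 ⟨h1, h2, h3⟩, rfl⟩

lemma two_mul_card_ecl (K : Finset V) : (2 * (ecl K).card : ℤ) = K.card * ((K.card : ℤ) - 1) := by
  have h := Sym2.two_mul_card_image_offDiag K
  rw [Finset.offDiag_card] at h
  have h2 : K.card ≤ K.card * K.card := Nat.le_mul_self _
  have h3 : (2 * (ecl K).card : ℤ) = ((K.card * K.card - K.card : ℕ) : ℤ) := by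
    rw [← h]
    push_cast
    rfl
  rw [h3, Nat.cast_sub h2]
  push_cast
  ring

lemma card_ecl (K : Finset V) : (ecl K).card = K.card.choose 2 := Sym2.card_image_offDiag K

lemma ecl_inter (A B : Finset V) : ecl A ∩ ecl B = ecl (A ∩ B) := by
  ext e
  induction e using Sym2.ind with
  | _ x y =>
    rw [Finset.mem_inter, mem_ecl, mem_ecl, mem_ecl, Finset.mem_inter, Finset.mem_inter]
    tauto

lemma ecl_mono {A B : Finset V} (h : A ⊆ B) : ecl A ⊆ ecl B := by
  intro e
  induction e using Sym2.ind with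
  | _ x y =>
    rw [mem_ecl, mem_ecl]
    rintro ⟨h1, h2, h3⟩
    exact ⟨h h1, h h2, h3⟩

lemma triple_edges {k : ℕ} (hk : 5 ≤ k) {A B C : Finset V} (h : Triple k A B C) :
    k * (A ∪ B ∪ C).card + 1 ≤ 2 * (ecl A ∪ ecl B ∪ ecl C).card := by
  obtain ⟨⟨cA, cB, cC⟩, ⟨hAB, hAC, hBC⟩, ha2, hb2, hW⟩ := h
  have h1 : (2 * (ecl A ∪ ecl B).card : ℤ) =
      2 * (k * ((k : ℤ) - 1)) - (A ∩ B).card * (((A ∩ B).card : ℤ) - 1) := by
    have e1 := Finset.card_union_add_card_inter (ecl A) (ecl B)
    rw [ecl_inter] at e1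
    have e2 := two_mul_card_ecl A
    have e3 := two_mul_card_ecl B
    have e4 := two_mul_card_ecl (A ∩ B)
    rw [cA] at e2
    rw [cB] at e3
    have e5 : ((ecl A ∪ ecl B).card : ℤ) + (ecl (A ∩ B)).card = (ecl A).card + (ecl B).card := by
      exact_mod_cast e1
    linarith
  have h2 := Finset.card_union_add_card_inter A B
  rw [cA, cB] at h2
  have haB : (A ∩ B).card ≤ k - 1 := by
    by_contra hcon
    have e1 : A ∩ B = A := Finset.eq_of_subset_of_card_le Finset.inter_subset_left (by omega)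
    have e2 : A ∩ B = B := Finset.eq_of_subset_of_card_le Finset.inter_subset_right (by omega)
    exact hAB (e1.symm.trans e2)
  set a := (A ∩ B).card with ha
  have h3 : (ecl A ∪ ecl B ∪ ecl C).card = (ecl A ∪ ecl B).card +
      (ecl C \ (ecl A ∪ ecl B)).card := by
    rw [← Finset.union_sdiff_self_eq_union, Finset.card_union_of_disjoint Finset.disjoint_sdiff]
  by_cases hsub : C ⊆ A ∪ B
  · have hWe : A ∪ B ∪ C = A ∪ B := Finset.union_eq_left.2 hsub
    rw [hWe] at hW ⊢
    have hα : 1 ≤ (C \ B).card := by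
      rw [Nat.one_le_iff_ne_zero, Ne, Finset.card_eq_zero, Finset.sdiff_eq_empty_iff_subset]
      intro hs
      exact hBC (Finset.eq_of_subset_of_card_le hs (by omega)).symm
    have hβ : 1 ≤ (C \ A).card := by
      rw [Nat.one_le_iff_ne_zero, Ne, Finset.card_eq_zero, Finset.sdiff_eq_empty_iff_subset]
      intro hs
      exact hAC (Finset.eq_of_subset_of_card_le hs (by omega)).symm
    have hαβ : k ≤ (C \ B).card + (C \ A).card + a := by
      have e1 : C ⊆ ((C \ B) ∪ (C \ A)) ∪ (A ∩ B) := by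
        intro x hx
        simp only [Finset.mem_union, Finset.mem_sdiff, Finset.mem_inter]
        tauto
      have e2 := Finset.card_le_card e1
      have e3 := Finset.card_union_le ((C \ B) ∪ (C \ A)) (A ∩ B)
      have e4 := Finset.card_union_le (C \ B) (C \ A)
      omega
    have h4 : (C \ B).card * (C \ A).card ≤ (ecl C \ (ecl A ∪ ecl B)).card := by
      rw [← Finset.card_product]
      refine Finset.card_le_card_of_injOn (fun x : V × V => s(x.1, x.2)) ?_ ?_
      · rintro ⟨x, y⟩ hxy
        rw [Finset.mem_coe, Finset.mem_product, Finset.mem_sdiff, Finset.mem_sdiff] at hxy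
        obtain ⟨⟨hx1, hx2⟩, hy1, hy2⟩ := hxy
        simp only at hx1 hx2 hy1 hy2
        have hxA : x ∈ A := by
          have := hsub hx1
          rw [Finset.mem_union] at this
          exact this.resolve_right hx2
        rw [Finset.mem_coe, Finset.mem_sdiff, Finset.mem_union, mem_ecl, mem_ecl, mem_ecl]
        refine ⟨⟨hx1, hy1, ?_⟩, ?_⟩
        · intro he
          simp only at he
          rw [← he] at hy2
          exact hy2 hxA
        · rintro (h | h)
          · exact hy2 h.2.1
          · exact hx2 h.1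
      · rintro ⟨x, y⟩ hxy ⟨x', y'⟩ hxy' he
        rw [Finset.mem_coe, Finset.mem_product, Finset.mem_sdiff, Finset.mem_sdiff] at hxy hxy'
        obtain ⟨⟨hx1, hx2⟩, hy1, hy2⟩ := hxy
        obtain ⟨⟨hx1', hx2'⟩, hy1', hy2'⟩ := hxy'
        simp only at hx1 hx2 hy1 hy2 hx1' hx2' hy1' hy2' he
        rw [Sym2.eq_iff] at he
        rcases he with ⟨rfl, rfl⟩ | ⟨rfl, rfl⟩
        · rfl
        · exfalso
          have := hsub hx1
          rw [Finset.mem_union] at this
          rcases this with h | h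
          · exact hy2' h
          · exact hx2 h
    set α := (C \ B).card
    set β := (C \ A).card
    have hcast : (k : ℤ) * (A ∪ B).card + 1 ≤ 2 * (ecl A ∪ ecl B ∪ ecl C).card := by
      rw [h3]
      push_cast
      have e1 : ((A ∪ B).card : ℤ) = 2 * k - a := by
        have : ((A ∪ B).card : ℤ) + a = k + k := by exact_mod_cast h2
        linarith
      have e2 : (α : ℤ) * β ≤ ((ecl C \ (ecl A ∪ ecl B)).card : ℤ) := by exact_mod_cast h4
      have e3 : (1 : ℤ) ≤ α := by exact_mod_cast hα
      have e4 : (1 : ℤ) ≤ β := by exact_mod_cast hβ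
      have e5 : (k : ℤ) ≤ α + β + a := by exact_mod_cast hαβ
      have e6 : (2 : ℤ) ≤ a := by exact_mod_cast ha2
      have e7 : (a : ℤ) ≤ k - 2 := by
        have : (k : ℤ) + 2 ≤ (A ∪ B).card := by exact_mod_cast hW
        linarith
      have e8 : (5 : ℤ) ≤ k := by exact_mod_cast hk
      have e9 : 0 ≤ ((α : ℤ) - 1) * (β - 1) := mul_nonneg (by linarith) (by linarith)
      have e10 : 0 ≤ ((a : ℤ) - 2) * (k - 2 - a) := mul_nonneg (by linarith) (by linarith)
      rw [e1]
      nlinarith
    exact_mod_cast hcast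
  · have h4 : (A ∪ B ∪ C).card = (A ∪ B).card + (C.card - (C ∩ (A ∪ B)).card) := by
      rw [← Finset.union_sdiff_self_eq_union, Finset.card_union_of_disjoint Finset.disjoint_sdiff]
      congr 1
      have := Finset.card_sdiff_add_card_inter C (A ∪ B)
      omega
    have h5 : (ecl C).card - (ecl (C ∩ (A ∪ B))).card ≤ (ecl C \ (ecl A ∪ ecl B)).card := by
      have e1 : ecl C \ ecl (A ∪ B) ⊆ ecl C \ (ecl A ∪ ecl B) :=
        Finset.sdiff_subset_sdiff (Finset.Subset.refl _)
          (Finset.union_subset (ecl_mono Finset.subset_union_left)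
            (ecl_mono Finset.subset_union_right))
      refine le_trans ?_ (Finset.card_le_card e1)
      rw [← ecl_inter]
      have := Finset.card_sdiff_add_card_inter (ecl C) (ecl (A ∪ B))
      omega
    have hj2 : 2 ≤ (C ∩ (A ∪ B)).card := by
      refine hb2.trans (Finset.card_le_card ?_)
      intro x hx
      rw [Finset.mem_inter] at hx
      exact Finset.mem_inter.2 ⟨hx.2, Finset.mem_union_left _ hx.1⟩
    have hjk : (C ∩ (A ∪ B)).card ≤ k - 1 := by
      by_contra hcon
      have e1 : C ∩ (A ∪ B) = C :=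
        Finset.eq_of_subset_of_card_le Finset.inter_subset_left (by omega)
      exact hsub (Finset.inter_eq_left.1 e1)
    have h6 := two_mul_card_ecl (C ∩ (A ∪ B))
    have h7 := two_mul_card_ecl C
    have h8 : (ecl (C ∩ (A ∪ B))).card ≤ (ecl C).card :=
      Finset.card_le_card (ecl_mono Finset.inter_subset_left)
    rw [cC] at h7 h4
    set j := (C ∩ (A ∪ B)).card
    have hcast : (k : ℤ) * (A ∪ B ∪ C).card + 1 ≤ 2 * (ecl A ∪ ecl B ∪ ecl C).card := by
      rw [h3, h4]
      push_cast
      have e1 : ((A ∪ B).card : ℤ) = 2 * k - a := by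
        have : ((A ∪ B).card : ℤ) + a = k + k := by exact_mod_cast h2
        linarith
      have e2 : ((ecl C).card : ℤ) - (ecl (C ∩ (A ∪ B))).card ≤
          ((ecl C \ (ecl A ∪ ecl B)).card : ℤ) := by
        have : ((((ecl C).card - (ecl (C ∩ (A ∪ B))).card : ℕ)) : ℤ) ≤
          ((ecl C \ (ecl A ∪ ecl B)).card : ℤ) := by exact_mod_cast h5
        rwa [Nat.cast_sub h8] at this
      have e3 : ((k - j : ℕ) : ℤ) = k - j := by
        rw [Nat.cast_sub (by omega)]
      have e4 : (2 : ℤ) ≤ j := by exact_mod_cast hj2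
      have e5 : (j : ℤ) ≤ k - 1 := by
        have : j + 1 ≤ k := by omega
        have : (j : ℤ) + 1 ≤ k := by exact_mod_cast this
        linarith
      have e6 : (2 : ℤ) ≤ a := by exact_mod_cast ha2
      have e7 : (a : ℤ) ≤ k - 1 := by
        have : a + 1 ≤ k := by omega
        have : (a : ℤ) + 1 ≤ k := by exact_mod_cast this
        linarith
      have e8 : (5 : ℤ) ≤ k := by exact_mod_cast hk
      have e9 : 0 ≤ ((a : ℤ) - 2) * (k - 1 - a) := mul_nonneg (by linarith) (by linarith)
      have e10 : 0 ≤ ((j : ℤ) - 2) * (k - 1 - j) := mul_nonneg (by linarith) (by linarith)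
      rw [e1, e3]
      nlinarith
    exact_mod_cast hcast

lemma triple_edges_le {k : ℕ} {A B C : Finset V} (h : Triple k A B C) :
    (ecl A ∪ ecl B ∪ ecl C).card ≤ 2 * k ^ 2 := by
  obtain ⟨⟨cA, cB, cC⟩, -⟩ := h
  have e1 := two_mul_card_ecl A
  have e2 := two_mul_card_ecl B
  have e3 := two_mul_card_ecl C
  rw [cA] at e1
  rw [cB] at e2
  rw [cC] at e3
  have e4 := Finset.card_union_le (ecl A ∪ ecl B) (ecl C)
  have e5 := Finset.card_union_le (ecl A) (ecl B)
  have e6 : ((ecl A ∪ ecl B ∪ ecl C).card : ℤ) ≤ 2 * (k : ℤ) ^ 2 := by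
    have e7 : ((ecl A ∪ ecl B ∪ ecl C).card : ℤ) ≤ (ecl A).card + (ecl B).card + (ecl C).card := by
      exact_mod_cast e4.trans (Nat.add_le_add_right e5 _)
    have e8 : (0 : ℤ) ≤ k := by positivity
    nlinarith
  exact_mod_cast e6

end Edges

/-! ## First moment bounds -/

section FirstMoment

open Classical in
lemma mem_pairs {n : ℕ} {e : Sym2 (Fin n)} : e ∈ pairs n ↔ ¬ e.IsDiag := by
  unfold pairs
  rw [SimpleGraph.mem_edgeFinset]
  induction e using Sym2.ind with
  | _ x y => simp

/-- the probability that all the edges in `S` are present -/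
lemma sum_superset {n : ℕ} (p : ℝ) (S : Finset (Sym2 (Fin n))) (hS : S ⊆ pairs n) :
    ∑ F ∈ (pairs n).powerset, (if S ⊆ F then
      p ^ F.card * (1 - p) ^ ((pairs n).card - F.card) else 0) = p ^ S.card := by
  classical
  rw [← Finset.sum_filter]
  have h1 : ∑ F ∈ (pairs n).powerset.filter (fun F => S ⊆ F),
      p ^ F.card * (1 - p) ^ ((pairs n).card - F.card) =
      ∑ F' ∈ (pairs n \ S).powerset, p ^ S.card *
        (p ^ F'.card * (1 - p) ^ ((pairs n \ S).card - F'.card)) := by
    refine Finset.sum_nbij' (fun F => F \ S) (fun F' => S ∪ F') ?_ ?_ ?_ ?_ ?_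
    · intro F hF
      rw [Finset.mem_filter, Finset.mem_powerset] at hF
      exact Finset.mem_powerset.2 (Finset.sdiff_subset_sdiff hF.1 (Finset.Subset.refl _))
    · intro F' hF'
      rw [Finset.mem_powerset] at hF'
      rw [Finset.mem_filter, Finset.mem_powerset]
      exact ⟨Finset.union_subset hS (hF'.trans Finset.sdiff_subset), Finset.subset_union_left⟩
    · intro F hF
      rw [Finset.mem_filter] at hF
      exact Finset.union_sdiff_of_subset hF.2
    · intro F' hF'
      rw [Finset.mem_powerset] at hF'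
      rw [Finset.union_sdiff_left]
      refine Finset.sdiff_eq_self_of_disjoint ?_
      rw [Finset.disjoint_left]
      intro x hx hxS
      exact (Finset.mem_sdiff.1 (hF' hx)).2 hxS
    · intro F hF
      rw [Finset.mem_filter, Finset.mem_powerset] at hF
      have e1 := Finset.card_sdiff_of_subset hF.2
      have e2 := Finset.card_sdiff_of_subset hS
      have e3 := Finset.card_le_card hF.2
      have e4 := Finset.card_le_card hF.1
      rw [e1, e2, ← mul_assoc, ← pow_add]
      congr 2
      · omega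
      · omega
  rw [h1, ← Finset.mul_sum, Finset.sum_pow_mul_eq_add_pow]
  simp

lemma first_moment {n : ℕ} {p : ℝ} (hp0 : 0 ≤ p) (hp1 : p ≤ 1) {ι : Type} (I : Finset ι)
    (S : ι → Finset (Sym2 (Fin n))) (hS : ∀ i ∈ I, S i ⊆ pairs n)
    (A : SimpleGraph (Fin n) → Prop)
    (h : ∀ G : SimpleGraph (Fin n), A G → ∃ i ∈ I, ∀ e ∈ S i, e ∈ G.edgeSet) :
    prob n p A ≤ ∑ i ∈ I, p ^ (S i).card := by
  classical
  have h1 : prob n p A ≤ ∑ F ∈ (pairs n).powerset, ∑ i ∈ I, (if S i ⊆ F then
      p ^ F.card * (1 - p) ^ ((pairs n).card - F.card) else 0) := by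
    unfold prob
    refine Finset.sum_le_sum fun F _ => ?_
    have hw : 0 ≤ p ^ F.card * (1 - p) ^ ((pairs n).card - F.card) :=
      mul_nonneg (pow_nonneg hp0 _) (pow_nonneg (by linarith) _)
    have hnn : ∀ i ∈ I, 0 ≤ (if S i ⊆ F then
        p ^ F.card * (1 - p) ^ ((pairs n).card - F.card) else 0) := by
      intro i _
      split_ifs
      · exact hw
      · exact le_rfl
    split_ifs with hA
    · obtain ⟨i, hi, hSi⟩ := h _ hA
      have h2 : S i ⊆ F := by
        intro e he
        have := hSi e he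
        rw [SimpleGraph.edgeSet_fromEdgeSet] at this
        exact this.1
      calc p ^ F.card * (1 - p) ^ ((pairs n).card - F.card)
          = if S i ⊆ F then p ^ F.card * (1 - p) ^ ((pairs n).card - F.card) else 0 := by
            rw [if_pos h2]
        _ ≤ _ := Finset.single_le_sum hnn hi
    · exact Finset.sum_nonneg hnn
  refine h1.trans (le_of_eq ?_)
  rw [Finset.sum_comm]
  exact Finset.sum_congr rfl fun i hi => sum_superset p (S i) (hS i hi)

lemma prob_union {n : ℕ} {p : ℝ} (hp0 : 0 ≤ p) (hp1 : p ≤ 1)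
    (A A1 A2 A3 : SimpleGraph (Fin n) → Prop) (h : ∀ G, A G → A1 G ∨ A2 G ∨ A3 G) :
    prob n p A ≤ prob n p A1 + prob n p A2 + prob n p A3 := by
  classical
  unfold prob
  rw [← Finset.sum_add_distrib, ← Finset.sum_add_distrib]
  refine Finset.sum_le_sum fun F _ => ?_
  have hw : 0 ≤ p ^ F.card * (1 - p) ^ ((pairs n).card - F.card) :=
    mul_nonneg (pow_nonneg hp0 _) (pow_nonneg (by linarith) _)
  have := h (SimpleGraph.fromEdgeSet (F : Set (Sym2 (Fin n))))
  split_ifs <;> first | linarith | tauto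

end FirstMoment

/-! ## Numerical estimates -/

section Estimates

lemma rpow_bound {n k : ℕ} (hn : 1 ≤ n) (hk : 1 ≤ k) {e w r : ℕ} (h : k * w + r ≤ 2 * e) :
    ((n : ℝ) ^ (-(2 : ℝ) / k)) ^ e ≤ (1 / (n : ℝ) ^ w) * (n : ℝ) ^ (-(r : ℝ) / k) := by
  have hn' : (1 : ℝ) ≤ n := by exact_mod_cast hn
  have hn0 : (0 : ℝ) < n := by linarith
  have hk' : (0 : ℝ) < k := by
    have : (1 : ℝ) ≤ k := by exact_mod_cast hk
    linarith
  rw [← Real.rpow_natCast, ← Real.rpow_mul hn0.le, one_div, ← Real.rpow_natCast (n : ℝ) w,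
    ← Real.rpow_neg hn0.le, ← Real.rpow_add hn0]
  apply Real.rpow_le_rpow_of_exponent_le hn'
  have h' : (k : ℝ) * w + r ≤ 2 * e := by exact_mod_cast h
  rw [div_mul_eq_mul_div, div_le_iff₀ hk']
  have e1 : (-(w : ℝ) + -(r : ℝ) / k) * k = -(k * w) - r := by
    field_simp
    ring
  rw [e1]
  linarith

/-- the data of the estimates -/
structure Data (n k : ℕ) (c p : ℝ) : Prop where
  hn : 1 ≤ n
  hk : 8 ≤ k
  hc : 1 ≤ c
  hck : c ^ (k ^ 2) ≤ 2
  hp : p = c * (n : ℝ) ^ (-(2 : ℝ) / k)
  hp1 : p ≤ 1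

variable {n k : ℕ} {c p : ℝ}

lemma Data.hp0 (h : Data n k c p) : 0 ≤ p := by
  rw [h.hp]
  have := h.hc
  positivity

lemma Data.pow_le (h : Data n k c p) {e w : ℕ} (he : k * w ≤ 2 * e) (he' : e ≤ k ^ 2) :
    p ^ e ≤ 2 * (1 / (n : ℝ) ^ w) := by
  rw [h.hp, mul_pow]
  have h1 := rpow_bound (k := k) h.hn (by have := h.hk; omega) (e := e) (w := w) (r := 0)
    (by omega)
  have h2 : c ^ e ≤ 2 := (pow_le_pow_right₀ h.hc he').trans h.hck
  have h3 : (0 : ℝ) ≤ 1 / (n : ℝ) ^ w := by positivity
  have h4 : (n : ℝ) ^ (-((0 : ℕ) : ℝ) / k) = 1 := by simp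
  rw [h4, mul_one] at h1
  exact mul_le_mul h2 h1 (by positivity) (by norm_num)

lemma Data.pow_le' (h : Data n k c p) {e w : ℕ} (he : k * w + 1 ≤ 2 * e) (he' : e ≤ 2 * k ^ 2) :
    p ^ e ≤ 4 * ((1 / (n : ℝ) ^ w) * (n : ℝ) ^ (-(1 : ℝ) / k)) := by
  rw [h.hp, mul_pow]
  have h1 := rpow_bound (k := k) h.hn (by have := h.hk; omega) (e := e) (w := w) (r := 1) he
  have h2 : c ^ e ≤ 4 := by
    calc c ^ e ≤ c ^ (2 * k ^ 2) := pow_le_pow_right₀ h.hc he'
      _ = (c ^ (k ^ 2)) ^ 2 := by rw [← pow_mul]; ring_nf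
      _ ≤ 2 ^ 2 := pow_le_pow_left₀ (by have := h.hc; positivity) h.hck 2
      _ = 4 := by norm_num
  rw [Nat.cast_one] at h1
  exact mul_le_mul h2 h1 (by positivity) (by norm_num)

lemma choose_mul_le (n w : ℕ) (hn : 1 ≤ n) : (n.choose w : ℝ) * (1 / (n : ℝ) ^ w) ≤ 1 / w.factorial := by
  have hn0 : (0 : ℝ) < (n : ℝ) ^ w := by
    have : (0 : ℝ) < n := by exact_mod_cast hn
    positivity
  have h1 : (n.choose w : ℝ) ≤ (n : ℝ) ^ w / w.factorial := by
    have := Nat.choose_le_pow_div (α := ℝ) w n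
    exact_mod_cast this
  calc (n.choose w : ℝ) * (1 / (n : ℝ) ^ w) ≤ ((n : ℝ) ^ w / w.factorial) * (1 / (n : ℝ) ^ w) :=
        mul_le_mul_of_nonneg_right h1 (by positivity)
    _ = 1 / w.factorial := by field_simp

lemma factorial_ge {k : ℕ} (hk : 8 ≤ k) : (40320 : ℝ) ≤ k.factorial := by
  have h1 : (8 : ℕ).factorial ≤ k.factorial := Nat.factorial_le hk
  have h2 : (8 : ℕ).factorial = 40320 := rfl
  rw [h2] at h1
  exact_mod_cast h1

/-- the first bad configuration -/
lemma bound1 (h : Data n k c p) :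
    prob n p (fun G => ∃ K, G.IsNClique (k + 1) K) ≤ 1 / 10 := by
  classical
  have h1 : prob n p (fun G => ∃ K, G.IsNClique (k + 1) K) ≤
      ∑ K ∈ Finset.powersetCard (k + 1) (Finset.univ : Finset (Fin n)), p ^ (ecl K).card := by
    refine first_moment h.hp0 h.hp1 _ ecl ?_ _ ?_
    · intro K _ e
      induction e using Sym2.ind with
      | _ x y =>
        rw [mem_ecl, mem_pairs]
        rintro ⟨_, _, h3⟩
        simpa using h3
    · rintro G ⟨K, hK⟩
      refine ⟨K, Finset.mem_powersetCard.2 ⟨Finset.subset_univ _, hK.2⟩, ?_⟩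
      intro e
      induction e using Sym2.ind with
      | _ x y =>
        rw [mem_ecl, SimpleGraph.mem_edgeSet]
        rintro ⟨h1, h2, h3⟩
        exact hK.1 h1 h2 h3
  have h2 : ∀ K ∈ Finset.powersetCard (k + 1) (Finset.univ : Finset (Fin n)),
      p ^ (ecl K).card ≤ 2 * (1 / (n : ℝ) ^ (k + 1)) := by
    intro K hK
    have hKc := (Finset.mem_powersetCard.1 hK).2
    have e1 := two_mul_card_ecl K
    rw [hKc] at e1
    push_cast at e1
    refine h.pow_le ?_ ?_
    · have : ((k * (k + 1) : ℕ) : ℤ) ≤ ((2 * (ecl K).card : ℕ) : ℤ) := by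
        push_cast
        linarith
      exact_mod_cast this
    · have : (((ecl K).card : ℕ) : ℤ) ≤ ((k ^ 2 : ℕ) : ℤ) := by
        push_cast
        have h8 : (8 : ℤ) ≤ k := by exact_mod_cast h.hk
        nlinarith
      exact_mod_cast this
  refine h1.trans ((Finset.sum_le_sum h2).trans ?_)
  rw [Finset.sum_const, Finset.card_powersetCard, Finset.card_univ, Fintype.card_fin, nsmul_eq_mul]
  have h3 := choose_mul_le n (k + 1) h.hn
  have h4 := factorial_ge (k := k + 1) (by have := h.hk; omega)
  have h5 : (1 : ℝ) / (k + 1).factorial ≤ 1 / 40320 :=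
    one_div_le_one_div_of_le (by norm_num) h4
  have h6 : (n.choose (k + 1) : ℝ) * (2 * (1 / (n : ℝ) ^ (k + 1))) =
      2 * ((n.choose (k + 1) : ℝ) * (1 / (n : ℝ) ^ (k + 1))) := by ring
  rw [h6]
  linarith

/-- the second bad configuration -/
lemma bound2 (h : Data n k c p) :
    prob n p (fun G => ∃ A B C, Triple k A B C ∧ G.IsNClique k A ∧ G.IsNClique k B ∧
      G.IsNClique k C) ≤ ((3 * k + 1 : ℕ) : ℝ) * (8 ^ (3 * k) * 4) * (n : ℝ) ^ (-(1 : ℝ) / k) := by
  classical
  set I : Finset (Finset (Fin n) × Finset (Fin n) × Finset (Fin n)) :=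
    Finset.univ.filter (fun t => Triple k t.1 t.2.1 t.2.2) with hI
  set W : Finset (Fin n) × Finset (Fin n) × Finset (Fin n) → Finset (Fin n) :=
    fun t => t.1 ∪ t.2.1 ∪ t.2.2 with hW
  have h1 : prob n p (fun G => ∃ A B C, Triple k A B C ∧ G.IsNClique k A ∧ G.IsNClique k B ∧
      G.IsNClique k C) ≤ ∑ t ∈ I, p ^ (ecl t.1 ∪ ecl t.2.1 ∪ ecl t.2.2).card := by
    refine first_moment h.hp0 h.hp1 I (fun t => ecl t.1 ∪ ecl t.2.1 ∪ ecl t.2.2) ?_ _ ?_
    · intro t _ e
      induction e using Sym2.ind with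
      | _ x y =>
        rw [Finset.mem_union, Finset.mem_union, mem_ecl, mem_ecl, mem_ecl, mem_pairs]
        intro h3
        simp only [Sym2.mk_isDiag_iff]
        tauto
    · rintro G ⟨A, B, C, hT, hA, hB, hC⟩
      refine ⟨(A, B, C), Finset.mem_filter.2 ⟨Finset.mem_univ _, hT⟩, ?_⟩
      intro e
      induction e using Sym2.ind with
      | _ x y =>
        simp only
        rw [Finset.mem_union, Finset.mem_union, mem_ecl, mem_ecl, mem_ecl, SimpleGraph.mem_edgeSet]
        rintro ((⟨h1, h2, h3⟩ | ⟨h1, h2, h3⟩) | ⟨h1, h2, h3⟩)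
        · exact hA.1 h1 h2 h3
        · exact hB.1 h1 h2 h3
        · exact hC.1 h1 h2 h3
  set g : ℕ → ℝ := fun w => if w ≤ 3 * k then
    4 * ((1 / (n : ℝ) ^ w) * (n : ℝ) ^ (-(1 : ℝ) / k)) else 0 with hg
  have hg0 : ∀ w, 0 ≤ g w := by
    intro w
    rw [hg]
    simp only
    split_ifs
    · positivity
    · exact le_rfl
  have h2 : ∀ t ∈ I, p ^ (ecl t.1 ∪ ecl t.2.1 ∪ ecl t.2.2).card ≤ g (W t).card := by
    intro t ht
    rw [hI, Finset.mem_filter] at ht
    have hT := ht.2
    have hw : (W t).card ≤ 3 * k := by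
      have e1 := Finset.card_union_le (t.1 ∪ t.2.1) t.2.2
      have e2 := Finset.card_union_le t.1 t.2.1
      have e3 := hT.1
      rw [hW]
      simp only
      omega
    rw [hg]
    simp only
    rw [if_pos hw]
    exact h.pow_le' (triple_edges (by have := h.hk; omega) hT) (triple_edges_le hT)
  have h3 : ∑ t ∈ I, g (W t).card ≤
      ∑ U ∈ (Finset.univ : Finset (Fin n)).powerset, (8 : ℝ) ^ U.card * g U.card := by
    rw [← Finset.sum_fiberwise_of_maps_to (g := W) (s := I)
      (t := (Finset.univ : Finset (Fin n)).powerset) (fun t _ => by simp)]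
    refine Finset.sum_le_sum fun U _ => ?_
    have e1 : ∑ t ∈ I.filter (fun t => W t = U), g (W t).card =
        ∑ t ∈ I.filter (fun t => W t = U), g U.card := by
      refine Finset.sum_congr rfl fun t ht => ?_
      rw [(Finset.mem_filter.1 ht).2]
    rw [e1, Finset.sum_const, nsmul_eq_mul]
    refine mul_le_mul_of_nonneg_right ?_ (hg0 _)
    have e2 : I.filter (fun t => W t = U) ⊆ U.powerset ×ˢ U.powerset ×ˢ U.powerset := by
      rintro ⟨A, B, C⟩ ht
      have ht := (Finset.mem_filter.1 ht).2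
      rw [hW] at ht
      simp only at ht
      rw [Finset.mem_product, Finset.mem_product, Finset.mem_powerset, Finset.mem_powerset,
        Finset.mem_powerset, ← ht]
      exact ⟨Finset.subset_union_left.trans Finset.subset_union_left,
        Finset.subset_union_right.trans Finset.subset_union_left, Finset.subset_union_right⟩
    have e3 := Finset.card_le_card e2
    rw [Finset.card_product, Finset.card_product, Finset.card_powerset] at e3
    have e4 : (2 ^ U.card * (2 ^ U.card * 2 ^ U.card) : ℕ) = 8 ^ U.card := by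
      rw [← mul_pow, ← mul_pow]
      norm_num
    rw [e4] at e3
    exact_mod_cast e3
  rw [Finset.sum_powerset_apply_card (fun w => (8 : ℝ) ^ w * g w), Finset.card_univ,
    Fintype.card_fin] at h3
  set X : ℝ := (8 ^ (3 * k) * 4) * (n : ℝ) ^ (-(1 : ℝ) / k) with hX
  have hX0 : 0 ≤ X := by positivity
  have h4 : ∀ w ∈ Finset.range (n + 1), n.choose w • ((8 : ℝ) ^ w * g w) ≤
      if w ∈ Finset.range (3 * k + 1) then X else 0 := by
    intro w _
    rw [hg, nsmul_eq_mul]
    simp only [Finset.mem_range, Nat.lt_succ_iff]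
    split_ifs with hw
    · have e1 := choose_mul_le n w h.hn
      have e2 : (1 : ℝ) / w.factorial ≤ 1 := by
        rw [div_le_one (by positivity)]
        exact_mod_cast Nat.factorial_pos w
      have e3 : (8 : ℝ) ^ w ≤ 8 ^ (3 * k) := pow_le_pow_right₀ (by norm_num) hw
      have e4 : (n.choose w : ℝ) * (8 ^ w * (4 * (1 / (n : ℝ) ^ w * (n : ℝ) ^ (-(1 : ℝ) / k)))) =
          ((n.choose w : ℝ) * (1 / (n : ℝ) ^ w)) * (8 ^ w * (4 * (n : ℝ) ^ (-(1 : ℝ) / k))) := by
        ring
      rw [e4]
      have e5 : 0 ≤ (n : ℝ) ^ (-(1 : ℝ) / k) := by positivity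
      calc ((n.choose w : ℝ) * (1 / (n : ℝ) ^ w)) * (8 ^ w * (4 * (n : ℝ) ^ (-(1 : ℝ) / k)))
          ≤ 1 * (8 ^ (3 * k) * (4 * (n : ℝ) ^ (-(1 : ℝ) / k))) := by
            refine mul_le_mul (e1.trans e2) ?_ (by positivity) (by norm_num)
            exact mul_le_mul_of_nonneg_right e3 (by positivity)
        _ = X := by rw [hX]; ring
    · simp
  have h5 : ∑ w ∈ Finset.range (n + 1), (if w ∈ Finset.range (3 * k + 1) then X else 0) ≤
      ((3 * k + 1 : ℕ) : ℝ) * X := by
    rw [← Finset.sum_filter, Finset.sum_const, nsmul_eq_mul]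
    refine mul_le_mul_of_nonneg_right ?_ hX0
    have e1 : (Finset.range (n + 1)).filter (fun w => w ∈ Finset.range (3 * k + 1)) ⊆
        Finset.range (3 * k + 1) := fun w hw => (Finset.mem_filter.1 hw).2
    have e2 := Finset.card_le_card e1
    rw [Finset.card_range] at e2
    exact_mod_cast e2
  calc _ ≤ _ := h1
    _ ≤ _ := Finset.sum_le_sum h2
    _ ≤ _ := h3
    _ ≤ _ := Finset.sum_le_sum h4
    _ ≤ _ := h5
    _ = _ := by rw [hX]; ring

lemma pow_self_le (m : ℕ) : (m : ℝ) ^ m ≤ 3 ^ m * m.factorial := by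
  have h1 := Real.pow_div_factorial_le_exp (x := (m : ℝ)) (Nat.cast_nonneg m) m
  have h2 : Real.exp m ≤ 3 ^ m := by
    have e1 : Real.exp (m : ℝ) = Real.exp 1 ^ m := by
      rw [← Real.exp_nat_mul, mul_one]
    rw [e1]
    exact pow_le_pow_left₀ (Real.exp_pos 1).le Real.exp_one_lt_three.le m
  have h3 : (0 : ℝ) < m.factorial := by positivity
  rw [div_le_iff₀ h3] at h1
  exact h1.trans (mul_le_mul_of_nonneg_right h2 h3.le)

/-- `C(X, m) ≤ (3 X / m) ^ m` -/
lemma choose_le_three (X m : ℕ) (hm : 1 ≤ m) : (X.choose m : ℝ) ≤ (3 * X / m) ^ m := by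
  have h1 : (X.choose m : ℝ) ≤ (X : ℝ) ^ m / m.factorial := by
    have := Nat.choose_le_pow_div (α := ℝ) m X
    exact_mod_cast this
  have h2 := pow_self_le m
  have hm0 : (0 : ℝ) < m := by exact_mod_cast hm
  refine h1.trans ?_
  rw [div_pow, mul_pow, div_le_div_iff₀ (by positivity) (by positivity)]
  calc (X : ℝ) ^ m * (m : ℝ) ^ m ≤ (X : ℝ) ^ m * (3 ^ m * m.factorial) :=
        mul_le_mul_of_nonneg_left h2 (by positivity)
    _ = 3 ^ m * (X : ℝ) ^ m * m.factorial := by ring

lemma count_bound {n k m : ℕ} (hn : 1 ≤ n) (hk : 8 ≤ k) (hm : 1 ≤ m) :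
    ((n.choose (min (4 * m) n) * ((min (4 * m) n).choose k).choose m : ℕ) : ℝ) *
      (2 * (1 / (n : ℝ) ^ (k - 1))) ^ m ≤ (1944 / k.factorial : ℝ) ^ m := by
  obtain ⟨l, rfl⟩ : ∃ l, k = l + 5 := ⟨k - 5, by omega⟩
  have hn0 : (0 : ℝ) < n := by exact_mod_cast hn
  have hm0 : (0 : ℝ) < m := by exact_mod_cast hm
  have hf : (0 : ℝ) < (l + 5).factorial := by positivity
  have hk1 : l + 5 - 1 = l + 4 := by omega
  rw [hk1]
  push_cast
  rcases le_total (4 * m) n with h | h
  · rw [min_eq_left h]
    have h1 : (n.choose (4 * m) : ℝ) ≤ ((3 * n / (4 * m)) ^ 4) ^ m := by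
      have := choose_le_three n (4 * m) (by omega)
      rw [← pow_mul]
      push_cast at this
      exact this
    have h2 : (((4 * m).choose (l + 5)).choose m : ℝ) ≤
        (3 * ((4 * m : ℝ) ^ (l + 5) / (l + 5).factorial) / m) ^ m := by
      refine (choose_le_three _ m hm).trans (pow_le_pow_left₀ (by positivity) ?_ m)
      have e1 : ((4 * m).choose (l + 5) : ℝ) ≤ (4 * m : ℝ) ^ (l + 5) / (l + 5).factorial := by
        have := Nat.choose_le_pow_div (α := ℝ) (l + 5) (4 * m)
        push_cast at this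
        exact this
      gcongr
    calc (n.choose (4 * m) : ℝ) * (((4 * m).choose (l + 5)).choose m : ℝ) *
          (2 * (1 / (n : ℝ) ^ (l + 4))) ^ m
        ≤ ((3 * n / (4 * m)) ^ 4) ^ m * (3 * ((4 * m : ℝ) ^ (l + 5) / (l + 5).factorial) / m) ^ m *
          (2 * (1 / (n : ℝ) ^ (l + 4))) ^ m := by gcongr
      _ = (1944 / (l + 5).factorial * ((4 * m) / n) ^ l) ^ m := by
        rw [← mul_pow, ← mul_pow]
        congr 1
        rw [div_pow (4 * (m : ℝ)) (n : ℝ) l, pow_add (4 * (m : ℝ)) l 5, pow_add (n : ℝ) l 4]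
        field_simp
        norm_num
      _ ≤ (1944 / (l + 5).factorial * 1) ^ m := by
        have e1 : ((4 * m : ℝ) / n) ^ l ≤ 1 := by
          apply pow_le_one₀ (by positivity)
          rw [div_le_one hn0]
          exact_mod_cast h
        gcongr
      _ = _ := by rw [mul_one]
  · rw [min_eq_right h, Nat.choose_self, Nat.cast_one, one_mul]
    have h2 : ((n.choose (l + 5)).choose m : ℝ) ≤
        (3 * ((n : ℝ) ^ (l + 5) / (l + 5).factorial) / m) ^ m := by
      refine (choose_le_three _ m hm).trans (pow_le_pow_left₀ (by positivity) ?_ m)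
      have e1 : (n.choose (l + 5) : ℝ) ≤ (n : ℝ) ^ (l + 5) / (l + 5).factorial :=
        Nat.choose_le_pow_div (α := ℝ) (l + 5) n
      gcongr
    calc ((n.choose (l + 5)).choose m : ℝ) * (2 * (1 / (n : ℝ) ^ (l + 4))) ^ m
        ≤ (3 * ((n : ℝ) ^ (l + 5) / (l + 5).factorial) / m) ^ m *
          (2 * (1 / (n : ℝ) ^ (l + 4))) ^ m := by gcongr
      _ = (6 / (l + 5).factorial * (n / m)) ^ m := by
        rw [← mul_pow]
        congr 1
        field_simp
        ring
      _ ≤ (1944 / (l + 5).factorial) ^ m := by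
        apply pow_le_pow_left₀ (by positivity)
        have e1 : (n : ℝ) / m ≤ 4 := by
          rw [div_le_iff₀ hm0]
          exact_mod_cast h
        calc 6 / ((l + 5).factorial : ℝ) * (n / m) ≤ 6 / (l + 5).factorial * 4 := by gcongr
          _ = 24 / (l + 5).factorial := by ring
          _ ≤ 1944 / (l + 5).factorial := by
            apply div_le_div_of_nonneg_right (by norm_num) hf.le

open Classical in
/-- the number of linear families with `m` members -/
lemma count_linear {n k m : ℕ} (_hm : 1 ≤ m) :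
    ((Finset.univ : Finset (Finset (Finset (Fin n)))).filter
      (fun F => Linear k F ∧ F.card = m)).card ≤
      n.choose (min (4 * m) n) * ((min (4 * m) n).choose k).choose m := by
  set u := min (4 * m) n with hu
  have h1 : (Finset.univ : Finset (Finset (Finset (Fin n)))).filter
      (fun F => Linear k F ∧ F.card = m) ⊆
      (Finset.powersetCard u (Finset.univ : Finset (Fin n))).biUnion
        (fun U => Finset.powersetCard m (Finset.powersetCard k U)) := by
    intro F hF
    obtain ⟨⟨-, hF1, -, hF3⟩, hF4⟩ := (Finset.mem_filter.1 hF).2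
    have h2 : (F.biUnion id).card ≤ u := by
      refine le_min (by omega) ?_
      have := Finset.card_le_univ (F.biUnion id)
      rwa [Fintype.card_fin] at this
    obtain ⟨U, hU1, hU2, hU3⟩ := Finset.exists_subsuperset_card_eq
      (s := F.biUnion id) (t := (Finset.univ : Finset (Fin n))) (n := u)
      (Finset.subset_univ _) h2 (by
        rw [Finset.card_univ, Fintype.card_fin]
        exact min_le_right _ _)
    rw [Finset.mem_biUnion]
    refine ⟨U, Finset.mem_powersetCard.2 ⟨hU2, hU3⟩, Finset.mem_powersetCard.2 ⟨?_, hF4⟩⟩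
    intro A hA
    refine Finset.mem_powersetCard.2 ⟨?_, hF1 A hA⟩
    exact (Finset.subset_biUnion_of_mem id hA).trans hU1
  refine (Finset.card_le_card h1).trans ?_
  refine (Finset.card_biUnion_le_card_mul _ _ ((u.choose k).choose m) ?_).trans ?_
  · intro U hU
    rw [Finset.card_powersetCard, Finset.card_powersetCard, (Finset.mem_powersetCard.1 hU).2]
  · rw [Finset.card_powersetCard, Finset.card_univ, Fintype.card_fin]

/-- the edges of the members of a linear family are different -/
lemma card_biUnion_ecl {n k : ℕ} {F : Finset (Finset (Fin n))} (hF : Linear k F) :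
    (F.biUnion ecl).card = F.card * k.choose 2 := by
  classical
  obtain ⟨-, hF1, hF2, -⟩ := hF
  rw [Finset.card_biUnion]
  · rw [Finset.sum_congr rfl fun A hA => by rw [card_ecl, hF1 A hA], Finset.sum_const, smul_eq_mul]
  · intro A hA B hB hAB
    rw [Function.onFun, Finset.disjoint_iff_inter_eq_empty, ecl_inter]
    rw [← Finset.card_eq_zero, card_ecl]
    have := hF2 A hA B hB hAB
    exact Nat.choose_eq_zero_of_lt (by omega)

/-- the third bad configuration -/
lemma bound3 (h : Data n k c p) :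
    prob n p (fun G => ∃ F : Finset (Finset (Fin n)), Linear k F ∧ ∀ A ∈ F, G.IsNClique k A) ≤
      1 / 10 := by
  classical
  set I : Finset (Finset (Finset (Fin n))) := Finset.univ.filter (fun F => Linear k F) with hI
  have h1 : prob n p (fun G => ∃ F : Finset (Finset (Fin n)), Linear k F ∧
      ∀ A ∈ F, G.IsNClique k A) ≤ ∑ F ∈ I, p ^ (F.biUnion ecl).card := by
    refine first_moment h.hp0 h.hp1 I (fun F => F.biUnion ecl) ?_ _ ?_
    · intro F _ e he
      rw [Finset.mem_biUnion] at he
      obtain ⟨A, _, he⟩ := he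
      induction e using Sym2.ind with
      | _ x y =>
        rw [mem_ecl] at he
        rw [mem_pairs]
        simpa using he.2.2
    · rintro G ⟨F, hF, hG⟩
      refine ⟨F, Finset.mem_filter.2 ⟨Finset.mem_univ _, hF⟩, ?_⟩
      intro e he
      rw [Finset.mem_biUnion] at he
      obtain ⟨A, hA, he⟩ := he
      induction e using Sym2.ind with
      | _ x y =>
        rw [mem_ecl] at he
        rw [SimpleGraph.mem_edgeSet]
        exact (hG A hA).1 he.1 he.2.1 he.2.2
  set t : ℝ := 2 * (1 / (n : ℝ) ^ (k - 1)) with ht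
  have ht0 : 0 ≤ t := by positivity
  have hchoose : 2 * (k.choose 2) = k * (k - 1) := by
    rw [Nat.choose_two_right]
    exact Nat.mul_div_cancel' (Nat.even_mul_pred_self k).two_dvd
  have hpt : p ^ (k.choose 2) ≤ t := by
    refine h.pow_le (by rw [hchoose]) ?_
    have : k * (k - 1) ≤ k * k := Nat.mul_le_mul_left k (Nat.sub_le k 1)
    rw [sq]
    omega
  have h2 : ∀ F ∈ I, p ^ (F.biUnion ecl).card ≤ t ^ F.card := by
    intro F hF
    rw [card_biUnion_ecl (Finset.mem_filter.1 hF).2, mul_comm, pow_mul]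
    exact pow_le_pow_left₀ (pow_nonneg h.hp0 _) hpt _
  set N := (Finset.univ : Finset (Finset (Fin n))).card with hN
  set κ : ℝ := 1944 / k.factorial with hκ
  have hκ0 : 0 ≤ κ := by positivity
  have hκ1 : κ ≤ 1 / 20 := by
    rw [hκ, div_le_div_iff₀ (by positivity) (by norm_num)]
    have := factorial_ge h.hk
    linarith
  have h3 : ∑ F ∈ I, t ^ F.card ≤ ∑ m ∈ Finset.Ico 1 (N + 1), κ ^ m := by
    rw [← Finset.sum_fiberwise_of_maps_to (g := fun F : Finset (Finset (Fin n)) => F.card) (s := I)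
      (t := Finset.Ico 1 (N + 1)) (fun F hF => ?_)]
    · refine Finset.sum_le_sum fun m hm => ?_
      rw [Finset.mem_Ico] at hm
      have e1 : ∑ F ∈ I.filter (fun F => F.card = m), t ^ F.card =
          ∑ F ∈ I.filter (fun F => F.card = m), t ^ m := by
        refine Finset.sum_congr rfl fun F hF => ?_
        rw [(Finset.mem_filter.1 hF).2]
      rw [e1, Finset.sum_const, nsmul_eq_mul]
      refine le_trans ?_ (count_bound h.hn h.hk hm.1)
      refine mul_le_mul_of_nonneg_right ?_ (pow_nonneg ht0 m)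
      have e2 := count_linear (n := n) (k := k) hm.1
      rw [hI, Finset.filter_filter]
      exact_mod_cast e2
    · have hF' := (Finset.mem_filter.1 hF).2
      rw [Finset.mem_Ico]
      refine ⟨Finset.card_pos.2 hF'.1, ?_⟩
      have : F.card ≤ N := Finset.card_le_card (Finset.subset_univ F)
      omega
  have h4 : ∑ m ∈ Finset.Ico 1 (N + 1), κ ^ m ≤ κ ^ 1 / (1 - κ) :=
    geom_sum_Ico_le_of_lt_one hκ0 (by linarith)
  have h5 : κ ^ 1 / (1 - κ) ≤ 1 / 10 := by
    rw [pow_one, div_le_div_iff₀ (by linarith) (by norm_num)]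
    linarith
  exact h1.trans ((Finset.sum_le_sum h2).trans (h3.trans (h4.trans h5)))

end Estimates

/-- For every `b ≥ 1` and every `k ≥ 8` the `(1 : b)` vertex Maker-Breaker `K_k`-game on `G(n, p)`
has no sharp threshold at `n ^ (-2 / k)`. -/
theorem result : ∀ b k : ℕ, 1 ≤ b → 8 ≤ k →
    ¬ SharpThreshold b k (fun n => (n : ℝ) ^ (-(2 : ℝ) / k)) := by
  intro b k hb hk hsharp
  have hk0 : (0 : ℝ) < k := by
    have : (8 : ℝ) ≤ k := by exact_mod_cast hk
    linarith
  have hk2 : k ^ 2 ≠ 0 := by positivity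
  set c : ℝ := (2 : ℝ) ^ (((k ^ 2 : ℕ) : ℝ)⁻¹) with hc
  have hck : c ^ (k ^ 2) = 2 := Real.rpow_inv_natCast_pow (by norm_num) hk2
  have hc1 : 1 < c := Real.one_lt_rpow (by norm_num) (by positivity)
  set p : ℕ → ℝ := fun n => min 1 (c * (n : ℝ) ^ (-(2 : ℝ) / k)) with hp
  have hp01 : ∀ n, 0 ≤ p n ∧ p n ≤ 1 := by
    intro n
    refine ⟨le_min (by norm_num) (by positivity), min_le_left _ _⟩
  have htend : Tendsto (fun n : ℕ => (n : ℝ) ^ (-(2 : ℝ) / k)) atTop (nhds 0) := by
    have h1 := (tendsto_rpow_neg_atTop (y := 2 / k) (by positivity)).comp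
      tendsto_natCast_atTop_atTop
    refine h1.congr fun n => ?_
    simp [neg_div]
  have htend1 : Tendsto (fun n : ℕ => c * (n : ℝ) ^ (-(2 : ℝ) / k)) atTop (nhds 0) := by
    have := htend.const_mul c
    rwa [mul_zero] at this
  have hsmall : ∀ᶠ n : ℕ in atTop, c * (n : ℝ) ^ (-(2 : ℝ) / k) ≤ 1 :=
    (htend1.eventually (gt_mem_nhds (show (0 : ℝ) < 1 by norm_num))).mono fun n h => le_of_lt h
  have hlim := (hsharp (c - 1) (by linarith) p hp01).1 (by
    filter_upwards [hsmall] with n hn
    rw [hp]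
    simp only
    rw [min_eq_right hn]
    have : 1 + (c - 1) = c := by ring
    rw [this])
  -- the probability of a win of Maker is bounded away from `1`
  have htend2 : Tendsto (fun n : ℕ => ((3 * k + 1 : ℕ) : ℝ) * (8 ^ (3 * k) * 4) *
      (n : ℝ) ^ (-(1 : ℝ) / k)) atTop (nhds 0) := by
    have h1 := (tendsto_rpow_neg_atTop (y := 1 / k) (by positivity)).comp
      tendsto_natCast_atTop_atTop
    have h2 := h1.const_mul (((3 * k + 1 : ℕ) : ℝ) * (8 ^ (3 * k) * 4))
    rw [mul_zero] at h2
    refine h2.congr fun n => ?_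
    simp [neg_div]
  have hev : ∀ᶠ n : ℕ in atTop, prob n (p n) (fun G => MakerWins G k b) ≤ 1 / 2 := by
    filter_upwards [hsmall, htend2.eventually (gt_mem_nhds (show (0 : ℝ) < 1 / 10 by norm_num)),
      eventually_ge_atTop 1] with n h1 h2 h3
    have hpn : p n = c * (n : ℝ) ^ (-(2 : ℝ) / k) := by
      rw [hp]
      simp only
      exact min_eq_right h1
    have hdata : Data n k c (p n) := ⟨h3, hk, hc1.le, hck.le, hpn, (hp01 n).2⟩
    have h4 := prob_union (n := n) (hp01 n).1 (hp01 n).2 (fun G => MakerWins G k b) _ _ _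
      (fun G hG => bad_of_makerWins G k b hb hG)
    have h5 := bound1 hdata
    have h6 := bound2 hdata
    have h7 := bound3 hdata
    linarith
  have := le_of_tendsto hlim hev
  norm_num at this

end Pool.Agent.Results.MP_a33257_co.NoSharpThreshold
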